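import Mathlib

open Set Filter Topology

namespace Pool.Agent.Results.MP_14365a_gt.Example

theorem result : ∃ (X : Type) (_ : TopologicalSpace X), CompactSpace X ∧ T2Space X ∧
    (¬ ∀ F : Set X, IsClosed F → ∃ h : C(X, ℝ), F = {x | h x = 0}) ∧
    ∀ f : X → ℝ, (∃ U : Set X, IsOpen U ∧ Dense U ∧ ContinuousOn f U) ↔
      ∃ h : C(X, ℝ), Dense {x | h x ≠ 0} ∧ ContinuousOn f {x | h x ≠ 0} := by
  have h0 : ∀ (h : C(Ultrafilter ℕ, ℝ)) (p : Ultrafilter ℕ),
      Tendsto (fun n => h (pure n)) p (𝓝 (h p)) := fun h p =>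
    (h.continuous.tendsto p).comp p.tendsto_pure_self
  refine ⟨Ultrafilter ℕ, inferInstance, inferInstance, inferInstance, fun h => ?_,
    fun f => ⟨fun _ => ?_, fun ⟨h, h1, h2⟩ =>
      ⟨_, isOpen_ne_fun h.continuous continuous_const, h1, h2⟩⟩⟩
  · obtain ⟨g, hg⟩ := h {hyperfilter ℕ} isClosed_singleton
    have h1 : ∀ n : ℕ, ∃ k, n ≤ k ∧ ‖g (pure k)‖ ≤ 1 / ((n : ℝ) + 1) := fun n =>
      (((eventually_ge_atTop n).filter_mono Nat.hyperfilter_le_atTop).and ((h0 g _).norm.eventually_le_const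
        (by rw [hg.subset rfl, norm_zero]; exact Nat.one_div_pos_of_nat))).exists
    choose u u1 u2 using h1
    obtain ⟨φ, p1, p2⟩ := strictMono_subseq_of_tendsto_atTop (tendsto_atTop_mono u1 tendsto_id)
    have h2 : ∀ i, range (fun n => u (φ (2 * n + i))) ∈ hyperfilter ℕ := fun i => by
      have h3 : (hyperfilter ℕ).map (fun n => u (φ (2 * n + i))) = hyperfilter ℕ :=
        hg.symm.subset (tendsto_nhds_unique (h0 g _) (((squeeze_zero_norm u2
          tendsto_one_div_add_atTop_nhds_zero_nat).comp (p1.tendsto_atTop.comp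
            (tendsto_atTop_mono (fun n => by omega : ∀ n, n ≤ 2 * n + i) tendsto_id))).mono_left
              Nat.hyperfilter_le_atTop))
      exact h3 ▸ range_mem_map
    obtain ⟨_, ⟨m, rfl⟩, n, hn⟩ := Ultrafilter.nonempty_of_mem (inter_mem (h2 0) (h2 1))
    have := p2.injective hn
    omega
  · let g : ℕ → Icc (0 : ℝ) 1 := fun n => ⟨1 / ((n : ℝ) + 1), Nat.one_div_pos_of_nat.le,
      by simpa using Nat.one_div_le_one_div n.zero_le (α := ℝ)⟩
    let h : C(Ultrafilter ℕ, ℝ) :=
      ⟨_, continuous_subtype_val.comp (continuous_ultrafilter_extend g)⟩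
    have h1 : ∀ n, h (pure n) = 1 / ((n : ℝ) + 1) := fun n =>
      congrArg Subtype.val (ultrafilter_extend_pure g n)
    refine ⟨h, denseRange_pure.mono (range_subset_iff.2 fun n =>
      (h1 n).trans_ne Nat.one_div_pos_of_nat.ne'), fun p hp => ?_⟩
    rcases p.le_cofinite_or_eq_pure with h2 | ⟨n, rfl⟩
    · exact absurd (tendsto_nhds_unique (h0 h p) ((tendsto_one_div_add_atTop_nhds_zero_nat.mono_left
        (h2.trans_eq Nat.cofinite_eq_atTop)).congr fun n => (h1 n).symm)) hp
    · refine (continuousAt_const (y := f (pure n))).continuousWithinAt.congr_of_eventuallyEq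
        (mem_nhdsWithin_of_mem_nhds (mem_of_superset ((ultrafilter_isOpen_basic {n}).mem_nhds rfl)
          fun q hq => congrArg f ?_)) rfl
      exact (Ultrafilter.eq_pure_of_finite_mem (finite_singleton n) hq).elim
        fun m hm => hm.1 ▸ hm.2

end Pool.Agent.Results.MP_14365a_gt.Example
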